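import Pool.Agent.helper55.RI.SpecG

/-!
# Project rg (MP_2bd605_lc), module G6: the decoder
-/

set_option autoImplicit false

namespace Pool.Agent.RI

open Pool.Agent.helper62 Prog Function Pool.Agent.helper81.PL

theorem G6_wds (n : ℕ) : ∀ w : W, w.length < n → w ∈ wds n := by
  induction n with
  | zero => intro w hw; omega
  | succ n ih =>
    intro w hw
    unfold wds
    cases w with
    | nil => exact List.mem_cons_self
    | cons b w =>
      rw [List.mem_cons]
      right
      rw [List.mem_flatMap]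
      refine ⟨w, ih w (by simpa using hw), ?_⟩
      cases b <;> simp

theorem G6_inRg (i : ℕ) (h2 : ∀ x, x.length < 2 ^ (GG i x).length) (u : W) :
    inRg i u = true ↔ ∃ y, GG i y = u := by
  unfold inRg
  rw [List.any_eq_true]
  constructor
  · rintro ⟨y, _, hy⟩
    exact ⟨y, of_decide_eq_true hy⟩
  · rintro ⟨y, hy⟩
    refine ⟨y, G6_wds _ y ?_, decide_eq_true hy⟩
    rw [← hy]
    exact h2 y

theorem G6_fal_iff (i k t : ℕ) : falG i k t = true ↔
    ∃ n < t, mk k (gk k (dw n)) ≠ dw n ∨ inRg i (gk k (dw n)) = false := by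
  unfold falG
  rw [List.any_eq_true]
  simp only [List.mem_range, Bool.or_eq_true, Bool.not_eq_true', decide_eq_false_iff_not]

theorem G6_mono (i k t t' : ℕ) (h : t ≤ t') (hF : falG i k t = true) : falG i k t' = true := by
  rw [G6_fal_iff] at hF ⊢
  obtain ⟨n, hn, h1⟩ := hF
  exact ⟨n, lt_of_lt_of_le hn h, h1⟩

theorem G6_time (i K : ℕ) (h : ∀ k < K, ∃ t, falG i k t = true) :
    ∃ T, ∀ k < K, falG i k T = true := by
  induction K with
  | zero => exact ⟨0, fun k hk => absurd hk (Nat.not_lt_zero k)⟩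
  | succ K ih =>
    obtain ⟨T, hT⟩ := ih (fun k hk => h k (Nat.lt_succ_of_lt hk))
    obtain ⟨t, ht⟩ := h K (Nat.lt_succ_self K)
    refine ⟨max T t, fun k hk => ?_⟩
    rcases Nat.lt_succ_iff_lt_or_eq.1 hk with h' | h'
    · exact G6_mono i k _ _ (le_max_left _ _) (hT k h')
    · subst h'
      exact G6_mono i k _ _ (le_max_right _ _) ht

theorem G6_dw (x : W) : dw (enc x) = x := by
  unfold dw enc
  rw [Encodable.encodek]
  rfl

theorem G6_nf (i k : ℕ) (h : ∀ t, ¬ falG i k t = true) :
    (∀ z, mk k (gk k z) = z) ∧ ∀ z, inRg i (gk k z) = true := by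
  constructor
  · intro z
    by_contra hz
    apply h (enc z + 1)
    rw [G6_fal_iff]
    refine ⟨enc z, Nat.lt_succ_self _, Or.inl ?_⟩
    rw [G6_dw]
    exact hz
  · intro z
    by_contra hz
    apply h (enc z + 1)
    rw [G6_fal_iff]
    refine ⟨enc z, Nat.lt_succ_self _, Or.inr ?_⟩
    rw [G6_dw]
    exact Bool.eq_false_iff.2 hz

theorem G6_kk (i k T : ℕ) (x : W) (hNF : ∀ t, ¬ falG i k t = true)
    (hT : ∀ k' < k, falG i k' T = true) (hk : k ≤ x.length) (hTx : T ≤ x.length) :
    kkG i x = k := by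
  unfold kkG
  have h : (List.range (x.length + 1)).find? (fun k => !falG i k x.length) = some k := by
    rw [List.find?_range_eq_some]
    refine ⟨?_, ?_, ?_⟩
    · rw [Bool.not_eq_true', Bool.eq_false_iff]
      exact hNF _
    · rw [List.mem_range]; omega
    · intro j hj
      rw [G6_mono i j _ _ hTx (hT j hj)]
      rfl
  rw [h]
  rfl

theorem G6 (hG1 : G1_stmt) : G6_stmt := by
  classical
  intro A i hinj hhon hTG ⟨g, m, hg, hm, hgm, hgr⟩
  obtain ⟨fsPT, snPT, prPT, hfs, hsn, _, hprlen⟩ := hG1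
  obtain ⟨pPT, pinj, plen, strip, sPT, hs⟩ := K3
  -- a never falsified pair
  have hex : ∃ k, ∀ t, ¬ falG i k t = true := by
    obtain ⟨k1, h1⟩ := uX9.2 g hg
    obtain ⟨k2, h2⟩ := uX9.2 m hm
    have e1 : gk (Nat.pair k1 k2) = g := by
      unfold gk
      rw [Nat.unpair_pair]
      exact h1
    have e2 : mk (Nat.pair k1 k2) = m := by
      unfold mk
      rw [Nat.unpair_pair]
      exact h2
    refine ⟨Nat.pair k1 k2, ?_⟩
    intro t ht
    rw [G6_fal_iff] at ht
    obtain ⟨n, -, h | h⟩ := ht
    · rw [e1, e2] at h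
      exact h (hgm _)
    · rw [e1] at h
      have h3 := (G6_inRg i hhon (g (dw n))).2 (hgr (dw n))
      rw [h] at h3
      exact absurd h3 (by simp)
  set k := Nat.find hex with hk
  have hNF : ∀ t, ¬ falG i k t = true := Nat.find_spec hex
  have hlt : ∀ k' < k, ∃ t, falG i k' t = true := by
    intro k' hk'
    have := Nat.find_min hex hk'
    push Not at this
    exact this
  obtain ⟨T, hT⟩ := G6_time i k hlt
  obtain ⟨hmg, hrg⟩ := G6_nf i k hNF
  have hchoose : ∀ z : W, ∃ y, GG i y = gk k z := fun z => (G6_inRg i hhon _).1 (hrg z)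
  choose y hy using hchoose
  have yinj : Injective y := by
    intro z z' h
    have h1 := hy z
    rw [h, hy z'] at h1
    have h2 := congrArg (mk k) h1
    rw [hmg, hmg] at h2
    exact h2.symm
  have htau : ∀ z, max k T ≤ (y z).length → tauG i (y z) = z := by
    intro z hz
    unfold tauG
    rw [G6_kk i k T (y z) hNF hT (le_trans (le_max_left _ _) hz) (le_trans (le_max_right _ _) hz),
      hy, hmg]
  -- finitely many exceptions
  have hfin : {z : W | (y z).length < max k T}.Finite := by
    have : {z : W | (y z).length < max k T} = y ⁻¹' {w : W | w.length < max k T} := rfl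
    rw [this]
    exact Set.Finite.preimage yinj.injOn (List.finite_length_lt Bool (max k T))
  obtain ⟨N, hN⟩ : ∃ N, ∀ z : W, (y z).length < max k T → z.length < N := by
    obtain ⟨N, hN⟩ := (hfin.image List.length).bddAbove
    refine ⟨N + 1, fun z hz => ?_⟩
    have := hN (Set.mem_image_of_mem _ hz)
    omega
  have gPT : PT (gk k) := uX9.1 _
  have mPT : PT (mk k) := uX9.1 _
  have preN : PT (fun z : W => pre N z) :=
    PT.comp (g := fun p : ℕ × W => pre p.1 p.2) (f := fun z => (N, z)) pPT
      (PT.pair (PT.const N) PT.id)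
  have inPT : PT (fun z : W => pr (fs z) (pre N z)) :=
    PT.comp (g := fun p : W × W => pr p.1 p.2) (f := fun z => (fs z, pre N z)) prPT
      (PT.pair fsPT preN)
  refine ⟨fun z => gk k (pr (fs z) (pre N z)), fun v => strip (sn (mk k v)), ?_, ?_, ?_, ?_⟩
  · exact PT.comp gPT inPT
  · exact PT.comp sPT (PT.comp snPT mPT)
  · intro x
    simp only [hmg, hsn, hs]
  · intro z
    have hz : max k T ≤ (y (pr (fs z) (pre N z))).length := by
      by_contra hc
      have := hN _ (not_le.1 hc)
      rw [hprlen, plen] at this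
      omega
    have h1 : z ∈ cyl A ↔ TG A i (y (pr (fs z) (pre N z))) := by
      unfold TG
      rw [htau _ hz, hfs]
      rfl
    rw [h1, hTG, hy]

end Pool.Agent.RI
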